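import Pool.Agent.helper7.EP.SpecL

/-!
# Project ep: (MP_ebc808_nt), module SPK
-/

set_option autoImplicit false

namespace Pool.Agent.EP

theorem SPK_cop (a w p : ℕ) (hp : p.Prime) (h : 2 ^ a < p) (hw : 3 * w ^ 2 < 2 ^ a) :
    Nat.Coprime (2 ^ a - 3 * w ^ 2) p := by
  apply Nat.Coprime.symm
  rw [Nat.Prime.coprime_iff_not_dvd hp]
  intro hd
  have := Nat.le_of_dvd (by omega) hd
  omega

theorem SPK : SPK_stmt := by
  intro a n w ha hS hw
  obtain ⟨p₁, p₂, h1, h2, h3, h4, h5⟩ := hS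
  rw [ws, Finset.mem_filter] at hw
  have hw2 := hw.2.2
  have hM : 24 * n + 3 - 2 ^ a = r0 a * p₁ * p₂ := by rw [h5]; exact Nat.add_sub_cancel _ _
  rw [hM]
  have c1 := SPK_cop a w p₁ h1 h3 hw2
  have c2 := SPK_cop a w p₂ h2 h4 hw2
  rw [Nat.Coprime.gcd_mul_right_cancel_right _ c2.symm, Nat.Coprime.gcd_mul_right_cancel_right _ c1.symm]

end Pool.Agent.EP
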